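import Mathlib

/-!
The Chung-Erdős inequality.
-/

set_option autoImplicit false

open MeasureTheory Filter Topology Finset

namespace Pool.Agent.R335.MK

variable {Ω : Type*} [MeasurableSpace Ω] {μ : Measure Ω} [IsProbabilityMeasure μ]

/-- Chung-Erdős. -/
theorem chung {ι : Type*} (s : Finset ι) (A : ι → Set Ω) (hA : ∀ i, MeasurableSet (A i)) :
    (∑ i ∈ s, μ.real (A i)) ^ 2 ≤
      (∑ i ∈ s, ∑ j ∈ s, μ.real (A i ∩ A j)) * μ.real (⋃ i ∈ s, A i) := by
  classical
  set U := ⋃ i ∈ s, A i with hU
  have hUm : MeasurableSet U := Finset.measurableSet_biUnion _ fun i _ => hA i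
  set Z : Ω → ℝ := fun x => ∑ i ∈ s, (A i).indicator (fun _ => (1 : ℝ)) x with hZ
  have hZint : Integrable Z μ := integrable_finsetSum _ fun i _ => (integrable_const _).indicator (hA i)
  have hZ1 : ∫ x, Z x ∂μ = ∑ i ∈ s, μ.real (A i) := by
    rw [hZ, integral_finsetSum _ fun i _ => (integrable_const _).indicator (hA i)]
    refine sum_congr rfl fun i _ => ?_
    rw [integral_indicator_const _ (hA i)]
    simp
  have hZZ : ∀ x, Z x ^ 2 = ∑ i ∈ s, ∑ j ∈ s, (A i ∩ A j).indicator (fun _ => (1 : ℝ)) x := by
    intro x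
    rw [hZ, sq, Finset.sum_mul_sum]
    refine sum_congr rfl fun i _ => sum_congr rfl fun j _ => ?_
    by_cases h1 : x ∈ A i <;> by_cases h2 : x ∈ A j <;> simp [h1, h2]
  have hZ2int : Integrable (fun x => Z x ^ 2) μ := by
    simp_rw [hZZ]
    exact integrable_finsetSum _ fun i _ => integrable_finsetSum _ fun j _ =>
      (integrable_const _).indicator ((hA i).inter (hA j))
  have hZ2 : ∫ x, Z x ^ 2 ∂μ = ∑ i ∈ s, ∑ j ∈ s, μ.real (A i ∩ A j) := by
    simp_rw [hZZ]
    rw [integral_finsetSum _ fun i _ => integrable_finsetSum _ fun j _ =>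
      (integrable_const _).indicator ((hA i).inter (hA j))]
    refine sum_congr rfl fun i _ => ?_
    rw [integral_finsetSum _ fun j _ => (integrable_const _).indicator ((hA i).inter (hA j))]
    refine sum_congr rfl fun j _ => ?_
    rw [integral_indicator_const _ ((hA i).inter (hA j))]
    simp
  set S := ∑ i ∈ s, μ.real (A i) with hS
  set Q := ∑ i ∈ s, ∑ j ∈ s, μ.real (A i ∩ A j) with hQ
  set u := μ.real U with hu
  have hquad : ∀ t : ℝ, 0 ≤ u * (t * t) + (-2 * S) * t + Q := by
    intro t
    have h1 : ∀ x, 0 ≤ Z x ^ 2 + ((-2 * t) * Z x + U.indicator (fun _ => t ^ 2) x) := by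
      intro x
      by_cases hx : x ∈ U
      · rw [Set.indicator_of_mem hx]
        nlinarith [sq_nonneg (Z x - t)]
      · rw [Set.indicator_of_notMem hx]
        have h2 : Z x = 0 := by
          rw [hZ]
          apply sum_eq_zero
          intro i hi
          apply Set.indicator_of_notMem
          intro hxi
          exact hx (Set.mem_biUnion hi hxi)
        rw [h2]
        simp
    have h2 : 0 ≤ ∫ x, (Z x ^ 2 + ((-2 * t) * Z x + U.indicator (fun _ => t ^ 2) x)) ∂μ :=
      integral_nonneg h1
    have i1 : Integrable (fun x => (-2 * t) * Z x) μ := hZint.const_mul _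
    have i2 : Integrable (U.indicator (fun _ => t ^ 2)) μ := (integrable_const _).indicator hUm
    have i3 : Integrable (fun x => (-2 * t) * Z x + U.indicator (fun _ => t ^ 2) x) μ := i1.add i2
    rw [integral_add hZ2int i3, integral_add i1 i2, integral_const_mul, hZ1, hZ2,
      integral_indicator_const _ hUm, smul_eq_mul] at h2
    linarith
  have h3 := discrim_le_zero hquad
  unfold discrim at h3
  nlinarith

end Pool.Agent.R335.MK
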