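import Mathlib

/-!
The overlap estimate for neighbourhoods of reduced fractions.
-/

set_option autoImplicit false

open MeasureTheory Filter Topology Finset Metric

namespace Pool.Agent.R335.MK

instance instProbCircle : IsProbabilityMeasure (volume : Measure UnitAddCircle) :=
  ⟨by rw [AddCircle.measure_univ, ENNReal.ofReal_one]⟩

/-- the numerators of the reduced fractions with denominator `q` -/
def num (q : ℕ) : Finset ℕ := (range q).filter fun a => a.gcd q = 1

/-- the fraction `a / q` on the circle -/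
noncomputable def pt (q a : ℕ) : UnitAddCircle := (((a : ℝ) / q : ℝ) : UnitAddCircle)

/-- the neighbourhood of the reduced fractions with denominator `q` -/
noncomputable def E (q : ℕ) (δ : ℝ) : Set UnitAddCircle := ⋃ a ∈ num q, ball (pt q a) δ

lemma E_eq {q : ℕ} (hq : 0 < q) (δ : ℝ) : approxAddOrderOf UnitAddCircle q δ = E q δ := by
  ext x
  rw [UnitAddCircle.mem_approxAddOrderOf_iff hq]
  unfold E num pt
  simp only [Set.mem_iUnion, mem_filter, mem_range, mem_ball, exists_prop, dist_eq_norm]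
  constructor
  · rintro ⟨m, h1, h2, h3⟩
    exact ⟨m, ⟨h1, h2⟩, h3⟩
  · rintro ⟨m, ⟨h1, h2⟩, h3⟩
    exact ⟨m, h1, h2, h3⟩

lemma card_num (q : ℕ) : (num q).card = Nat.totient q := by
  rw [Nat.totient_eq_card_coprime]
  unfold num
  congr 1
  ext a
  simp only [mem_filter, mem_range]
  rw [Nat.gcd_comm]

lemma meas_E (q : ℕ) (δ : ℝ) : MeasurableSet (E q δ) :=
  Finset.measurableSet_biUnion _ fun _ _ => isOpen_ball.measurableSet

lemma vol_ball_le (x : UnitAddCircle) {δ : ℝ} (h0 : 0 ≤ δ) :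
    (volume : Measure UnitAddCircle).real (ball x δ) ≤ 2 * δ := by
  have h1 : (volume : Measure UnitAddCircle).real (ball x δ) ≤
      (volume : Measure UnitAddCircle).real (closedBall x δ) :=
    measureReal_mono ball_subset_closedBall (measure_ne_top _ _)
  refine h1.trans ?_
  rw [measureReal_def, AddCircle.volume_closedBall]
  apply ENNReal.toReal_le_of_le_ofReal (by linarith)
  exact ENNReal.ofReal_le_ofReal (min_le_right _ _)

lemma vol_ball (x : UnitAddCircle) {δ : ℝ} (h0 : 0 ≤ δ) (h1 : δ ≤ 1 / 2) :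
    (volume : Measure UnitAddCircle).real (ball x δ) = 2 * δ := by
  have h2 : (volume : Measure UnitAddCircle) (ball x δ) = volume (closedBall x δ) :=
    (measure_congr (AddCircle.closedBall_ae_eq_ball (x := x) (ε := δ))).symm
  rw [measureReal_def, h2, AddCircle.volume_closedBall, min_eq_right (by linarith),
    ENNReal.toReal_ofReal (by linarith)]

lemma norm_frac_ge {m : ℤ} {q : ℕ} (hq : 0 < q) (h : ¬ (q : ℤ) ∣ m) :
    1 / (q : ℝ) ≤ ‖(((m : ℝ) / q : ℝ) : UnitAddCircle)‖ := by
  rw [UnitAddCircle.norm_eq]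
  set s := round ((m : ℝ) / q) with hs
  have hqR : (0 : ℝ) < q := by exact_mod_cast hq
  have h1 : m - q * s ≠ 0 := by
    intro h2
    apply h
    exact ⟨s, by linarith⟩
  have h2 : (1 : ℝ) ≤ |((m - q * s : ℤ) : ℝ)| := by
    exact_mod_cast Int.one_le_abs h1
  have h3 : (m : ℝ) / q - s = ((m - q * s : ℤ) : ℝ) / q := by
    push_cast
    field_simp
  rw [h3, abs_div, abs_of_pos hqR]
  gcongr

lemma sep {q a b : ℕ} (ha : a < q) (hb : b < q) (hab : a ≠ b) : 1 / (q : ℝ) ≤ dist (pt q a) (pt q b) := by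
  have hq : 0 < q := by omega
  rw [dist_eq_norm]
  unfold pt
  rw [← AddCircle.coe_sub, ← sub_div]
  have h1 : ((a : ℝ) - b) = (((a : ℤ) - b : ℤ) : ℝ) := by push_cast; rfl
  rw [h1]
  apply norm_frac_ge hq
  rintro ⟨c, hc⟩
  have h2 : |(a : ℤ) - b| < q := by
    rw [abs_lt]
    constructor <;> omega
  rw [hc, abs_mul] at h2
  have h3 : c ≠ 0 := by
    rintro rfl
    apply hab
    omega
  have h4 : 1 ≤ |c| := Int.one_le_abs h3
  have h5 : |(q : ℤ)| = q := abs_of_nonneg (by positivity)
  rw [h5] at h2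
  nlinarith

lemma vol_E {q : ℕ} (hq : 0 < q) {δ : ℝ} (h0 : 0 ≤ δ) (h1 : δ ≤ 1 / (2 * q)) :
    (volume : Measure UnitAddCircle).real (E q δ) = 2 * δ * Nat.totient q := by
  have hqR : (1 : ℝ) ≤ q := by exact_mod_cast hq
  have hδ : δ ≤ 1 / 2 := by
    refine h1.trans ?_
    rw [div_le_div_iff₀ (by positivity) (by norm_num)]
    linarith
  unfold E
  rw [measureReal_biUnion_finset]
  · rw [sum_congr rfl fun a _ => vol_ball (pt q a) h0 hδ, sum_const, card_num, nsmul_eq_mul]
    ring
  · intro a ha b hb hab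
    rw [Function.onFun]
    apply ball_disjoint_ball
    have h2 : a < q := mem_range.1 (mem_filter.1 ha).1
    have h3 : b < q := mem_range.1 (mem_filter.1 hb).1
    have h4 := sep h2 h3 hab
    have h5 : δ + δ ≤ 1 / q := by
      have : (1 : ℝ) / (2 * q) = 1 / q / 2 := by field_simp
      linarith
    linarith
  · intro a _
    exact isOpen_ball.measurableSet

/-- the number of pairs of close reduced fractions -/
lemma card_pairs {q r : ℕ} (hq : 0 < q) (hr : 0 < r) (hqr : q ≠ r) (D : ℝ) (hD : 0 ≤ D) :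
    (((num q ×ˢ num r).filter fun p => dist (pt q p.1) (pt r p.2) < D).card : ℝ) ≤ 2 * D * q * r := by
  classical
  set g := Nat.gcd q r with hg
  have hg0 : 0 < g := Nat.gcd_pos_of_pos_left _ hq
  obtain ⟨q', hq'⟩ : g ∣ q := Nat.gcd_dvd_left _ _
  obtain ⟨r', hr'⟩ : g ∣ r := Nat.gcd_dvd_right _ _
  have hq'0 : 0 < q' := Nat.pos_of_ne_zero (by rintro rfl; simp at hq'; omega)
  have hr'0 : 0 < r' := Nat.pos_of_ne_zero (by rintro rfl; simp at hr'; omega)
  have hcop : Nat.Coprime q' r' := by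
    have h1 : g * Nat.gcd q' r' = g := by
      rw [← Nat.gcd_mul_left, ← hq', ← hr']
    exact Nat.eq_of_mul_eq_mul_left hg0 (by rw [h1, mul_one])
  have hcopZ : IsCoprime (q' : ℤ) (r' : ℤ) := Nat.isCoprime_iff_coprime.2 hcop
  have hqR : (0 : ℝ) < q := by exact_mod_cast hq
  have hrR : (0 : ℝ) < r := by exact_mod_cast hr
  have hgR : (0 : ℝ) < g := by exact_mod_cast hg0
  set s := (num q ×ˢ num r).filter fun p => dist (pt q p.1) (pt r p.2) < D with hs
  -- the rounding
  let ρ : ℕ × ℕ → ℤ := fun p => round ((p.1 : ℝ) / q - (p.2 : ℝ) / r)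
  let f : ℕ × ℕ → ℤ := fun p => (p.1 : ℤ) * r' - (p.2 : ℤ) * q' - q' * r' * g * ρ p
  have hqeq : (q : ℝ) = g * q' := by exact_mod_cast hq'
  have hreq : (r : ℝ) = g * r' := by exact_mod_cast hr'
  have hq'R : (0 : ℝ) < q' := by exact_mod_cast hq'0
  have hr'R : (0 : ℝ) < r' := by exact_mod_cast hr'0
  have hfR : ∀ p, (f p : ℝ) = (q : ℝ) * r / g * ((p.1 : ℝ) / q - (p.2 : ℝ) / r - ρ p) := by
    intro p
    simp only [f]
    push_cast
    rw [hqeq, hreq]
    field_simp
  set Y : ℕ := ⌊(q : ℝ) * r * D / g⌋₊ with hY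
  have hmaps : ∀ p ∈ s, f p ∈ (Finset.Icc (-(Y : ℤ)) Y).erase 0 := by
    intro p hp
    rw [hs, mem_filter, mem_product] at hp
    obtain ⟨⟨ha, hb⟩, hd⟩ := hp
    unfold num at ha hb
    rw [mem_filter, mem_range] at ha hb
    have h1 : |(p.1 : ℝ) / q - (p.2 : ℝ) / r - ρ p| < D := by
      rw [dist_eq_norm] at hd
      unfold pt at hd
      rw [← AddCircle.coe_sub, UnitAddCircle.norm_eq] at hd
      exact hd
    have h2 : |(f p : ℝ)| < (q : ℝ) * r * D / g := by
      rw [hfR, abs_mul, abs_of_nonneg (by positivity)]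
      calc (q : ℝ) * r / g * |(p.1 : ℝ) / q - (p.2 : ℝ) / r - ρ p| < (q : ℝ) * r / g * D :=
            mul_lt_mul_of_pos_left h1 (by positivity)
        _ = _ := by ring
    have h3 : (|f p|.toNat : ℝ) ≤ (q : ℝ) * r * D / g := by
      have : ((|f p|.toNat : ℤ) : ℝ) = |(f p : ℝ)| := by
        rw [Int.toNat_of_nonneg (abs_nonneg _)]
        push_cast
        rfl
      have h4 : (|f p|.toNat : ℝ) = |(f p : ℝ)| := by rw [← this]; push_cast; rfl
      rw [h4]
      exact h2.le
    have h4 : |f p|.toNat ≤ Y := Nat.le_floor h3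
    have h5 : |f p| ≤ Y := by omega
    rw [Finset.mem_erase, Finset.mem_Icc]
    refine ⟨?_, abs_le.1 h5⟩
    intro h6
    -- the fractions would be equal
    have h7 : (p.1 : ℤ) * r' - (p.2 : ℤ) * q' = q' * r' * g * ρ p := by
      have : f p = 0 := h6
      simp only [f] at this
      linarith
    have h8 : (p.1 : ℤ) * r - (p.2 : ℤ) * q = q * r * ρ p := by
      have e1 : (q : ℤ) = g * q' := by exact_mod_cast hq'
      have e2 : (r : ℤ) = g * r' := by exact_mod_cast hr'
      rw [e1, e2]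
      linear_combination (g : ℤ) * h7
    have h9 : (q : ℤ) ∣ p.1 * r := ⟨p.2 + r * ρ p, by linear_combination h8⟩
    have h10 : (r : ℤ) ∣ p.2 * q := ⟨p.1 - q * ρ p, by linear_combination -h8⟩
    have h11 : q ∣ p.1 * r := by exact_mod_cast h9
    have h12 : r ∣ p.2 * q := by exact_mod_cast h10
    have h13 : q ∣ r := Nat.Coprime.dvd_of_dvd_mul_left (Nat.Coprime.symm ha.2) h11
    have h14 : r ∣ q := Nat.Coprime.dvd_of_dvd_mul_left (Nat.Coprime.symm hb.2) h12
    exact hqr (Nat.dvd_antisymm h13 h14)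
  have hfib : ∀ t ∈ (Finset.Icc (-(Y : ℤ)) Y).erase 0, (s.filter fun p => f p = t).card ≤ g := by
    intro t _
    have h1 : (s.filter fun p => f p = t).card ≤ (range g).card := by
      apply Finset.card_le_card_of_injOn (fun p => p.1 / q')
      · intro p hp
        rw [coe_filter, Set.mem_ofPred_eq] at hp
        have h2 := hp.1
        rw [hs, mem_filter, mem_product] at h2
        obtain ⟨⟨ha, _⟩, _⟩ := h2
        unfold num at ha
        rw [mem_filter, mem_range] at ha
        rw [Finset.coe_range, Set.mem_Iio]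
        apply Nat.div_lt_of_lt_mul
        rw [mul_comm, ← hq']
        exact ha.1
      · intro p hp p2 hp2 hpp
        rw [coe_filter, Set.mem_ofPred_eq] at hp hp2
        obtain ⟨hps, hpt⟩ := hp
        obtain ⟨hps2, hpt2⟩ := hp2
        rw [hs, mem_filter, mem_product] at hps hps2
        obtain ⟨⟨ha, hb⟩, _⟩ := hps
        obtain ⟨⟨ha2, hb2⟩, _⟩ := hps2
        unfold num at ha hb ha2 hb2
        rw [mem_filter, mem_range] at ha hb ha2 hb2
        have h3 : f p = f p2 := hpt.trans hpt2.symm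
        simp only [f] at h3
        have h4 : (q' : ℤ) ∣ ((p.1 : ℤ) - p2.1) * r' :=
          ⟨(p.2 - p2.2) + r' * g * (ρ p - ρ p2), by linear_combination h3⟩
        have h5 : (q' : ℤ) ∣ ((p.1 : ℤ) - p2.1) := hcopZ.dvd_of_dvd_mul_right h4
        have h6 : p.1 % q' = p2.1 % q' := by
          have := (Int.emod_emod_of_dvd (p.1 : ℤ) (dvd_refl (q' : ℤ)))
          have h7 : (p.1 : ℤ) % q' = (p2.1 : ℤ) % q' := Int.emod_eq_emod_iff_emod_sub_eq_zero.2
            (Int.emod_eq_zero_of_dvd h5)
          exact_mod_cast h7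
        have h7 : p.1 = p2.1 := by
          rw [← Nat.div_add_mod p.1 q', ← Nat.div_add_mod p2.1 q', h6]
          have : p.1 / q' = p2.1 / q' := hpp
          rw [this]
        have h8 : ((p.2 : ℤ) - p2.2) * q' = (-(r' * g * (ρ p - ρ p2))) * q' := by
          rw [h7] at h3
          linear_combination -h3
        have h9 : ((p.2 : ℤ) - p2.2) = (-(r' * g * (ρ p - ρ p2))) :=
          mul_right_cancel₀ (by exact_mod_cast hq'0.ne') h8
        have h10 : (r : ℤ) ∣ ((p.2 : ℤ) - p2.2) := by
          refine ⟨-(ρ p - ρ p2), ?_⟩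
          have e2 : (r : ℤ) = g * r' := by exact_mod_cast hr'
          rw [h9, e2]
          ring
        have h11 : p.2 = p2.2 := by
          obtain ⟨c, hc⟩ := h10
          have h12 : |(p.2 : ℤ) - p2.2| < r := by
            rw [abs_lt]
            constructor <;> omega
          rw [hc, abs_mul] at h12
          have h13 : |(r : ℤ)| = r := abs_of_nonneg (by positivity)
          rw [h13] at h12
          have h14 : c = 0 := by
            by_contra hc0
            have := Int.one_le_abs hc0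
            nlinarith
          rw [h14] at hc
          omega
        exact Prod.ext h7 h11
    rwa [card_range] at h1
  have h1 := Finset.card_le_mul_card_image_of_maps_to hmaps g hfib
  have h2 : ((Finset.Icc (-(Y : ℤ)) Y).erase 0).card = 2 * Y := by
    rw [card_erase_of_mem (by rw [Finset.mem_Icc]; omega), Int.card_Icc]
    omega
  rw [h2] at h1
  have h3 : (Y : ℝ) ≤ (q : ℝ) * r * D / g := Nat.floor_le (by positivity)
  calc (s.card : ℝ) ≤ (g : ℝ) * (2 * Y) := by exact_mod_cast h1
    _ ≤ g * (2 * ((q : ℝ) * r * D / g)) := by gcongr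
    _ = 2 * D * q * r := by
        field_simp

/-- **Overlap estimate.** -/
lemma overlap {q r : ℕ} (hq : 0 < q) (hr : 0 < r) (hqr : q ≠ r) {δ ε : ℝ} (hδ : 0 ≤ δ) (hε : 0 ≤ ε) :
    (volume : Measure UnitAddCircle).real (E q δ ∩ E r ε) ≤ 8 * (q * δ) * (r * ε) := by
  classical
  set s := (num q ×ˢ num r).filter fun p => dist (pt q p.1) (pt r p.2) < 2 * max δ ε with hs
  have hsub : E q δ ∩ E r ε ⊆ ⋃ p ∈ s, (ball (pt q p.1) δ ∩ ball (pt r p.2) ε) := by
    rintro x ⟨hx1, hx2⟩
    unfold E at hx1 hx2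
    simp only [Set.mem_iUnion, exists_prop] at hx1 hx2
    obtain ⟨a, ha, hxa⟩ := hx1
    obtain ⟨b, hb, hxb⟩ := hx2
    simp only [Set.mem_iUnion, exists_prop]
    refine ⟨(a, b), ?_, hxa, hxb⟩
    rw [hs, mem_filter, mem_product]
    refine ⟨⟨ha, hb⟩, ?_⟩
    rw [mem_ball] at hxa hxb
    calc dist (pt q a) (pt r b) ≤ dist (pt q a) x + dist x (pt r b) := dist_triangle _ _ _
      _ < δ + ε := by rw [dist_comm (pt q a) x]; linarith
      _ ≤ 2 * max δ ε := by
          have := le_max_left δ ε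
          have := le_max_right δ ε
          linarith
  have h1 : (volume : Measure UnitAddCircle).real (E q δ ∩ E r ε) ≤
      ∑ p ∈ s, (volume : Measure UnitAddCircle).real (ball (pt q p.1) δ ∩ ball (pt r p.2) ε) :=
    (measureReal_mono hsub (measure_ne_top _ _)).trans (measureReal_biUnion_finset_le _ _)
  have h2 : ∀ p ∈ s, (volume : Measure UnitAddCircle).real (ball (pt q p.1) δ ∩ ball (pt r p.2) ε) ≤
      2 * min δ ε := by
    intro p _
    rw [mul_min_of_nonneg _ _ (by norm_num : (0 : ℝ) ≤ 2)]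
    apply le_min
    · exact (measureReal_mono Set.inter_subset_left (measure_ne_top _ _)).trans (vol_ball_le _ hδ)
    · exact (measureReal_mono Set.inter_subset_right (measure_ne_top _ _)).trans (vol_ball_le _ hε)
  have h3 := card_pairs hq hr hqr (2 * max δ ε) (by positivity)
  have h4 : max δ ε * min δ ε = δ * ε := max_mul_min δ ε
  have hmin : 0 ≤ min δ ε := le_min hδ hε
  calc (volume : Measure UnitAddCircle).real (E q δ ∩ E r ε) ≤ ∑ p ∈ s, 2 * min δ ε :=
        h1.trans (sum_le_sum h2)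
    _ = s.card * (2 * min δ ε) := by rw [sum_const, nsmul_eq_mul]
    _ ≤ (2 * (2 * max δ ε) * q * r) * (2 * min δ ε) := by gcongr
    _ = 8 * q * r * (max δ ε * min δ ε) := by ring
    _ = 8 * (q * δ) * (r * ε) := by rw [h4]; ring

end Pool.Agent.R335.MK
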