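import Mathlib
import Pool.Agent.R335.MK.Overlap
import Pool.Agent.R335.MK.CE
import Pool.Agent.R335.PP.Family

/-!
A mixed Khintchine theorem: for almost every `α` there are infinitely many reduced fractions with
denominator `2 ^ j k`, `k` odd, `1 ≤ j ≤ log₄ k`, close to `α`.
-/

set_option autoImplicit false

open MeasureTheory Filter Topology Finset Metric

namespace Pool.Agent.R335.MK

/-- the pairs `(j, k)` of level `i` -/
def Sh (i : ℕ) : Finset (ℕ × ℕ) := (Icc 1 i) ×ˢ ((Ico (4 ^ i) (4 ^ (i + 1))).filter Odd)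

/-- the denominator -/
def qf (p : ℕ × ℕ) : ℕ := 2 ^ p.1 * p.2

/-- the numerator of the radius at level `i` -/
noncomputable def rho (i : ℕ) : ℝ := 1 / (16 * 4 ^ i * i ^ 2)

/-- the radius for the denominator `q` -/
noncomputable def del (q : ℕ) : ℝ :=
  if 1 ≤ padicValNat 2 q ∧ padicValNat 2 q ≤ Nat.log 4 (q / 2 ^ padicValNat 2 q) then
    rho (Nat.log 4 (q / 2 ^ padicValNat 2 q)) / q else 0

lemma val_qf {p : ℕ × ℕ} (h : Odd p.2) : padicValNat 2 (qf p) = p.1 := by
  unfold qf
  have h1 : p.2 ≠ 0 := by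
    rintro h0
    rw [h0] at h
    exact absurd h (by decide)
  rw [padicValNat.mul (by positivity) h1, padicValNat.prime_pow]
  have h2 : ¬ 2 ∣ p.2 := by
    rw [Nat.odd_iff] at h
    omega
  rw [padicValNat.eq_zero_of_not_dvd h2, add_zero]

lemma quo_qf {p : ℕ × ℕ} (h : Odd p.2) : qf p / 2 ^ padicValNat 2 (qf p) = p.2 := by
  rw [val_qf h]
  unfold qf
  exact Nat.mul_div_cancel_left _ (by positivity)

lemma qf_inj {p p' : ℕ × ℕ} (h : Odd p.2) (h' : Odd p'.2) (he : qf p = qf p') : p = p' := by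
  have h1 := val_qf h
  have h2 := val_qf h'
  have h3 := quo_qf h
  have h4 := quo_qf h'
  rw [he] at h1 h3
  exact Prod.ext (h1.symm.trans h2) (h3.symm.trans h4)

lemma mem_Sh {i : ℕ} {p : ℕ × ℕ} (hp : p ∈ Sh i) :
    1 ≤ p.1 ∧ p.1 ≤ i ∧ 4 ^ i ≤ p.2 ∧ p.2 < 4 ^ (i + 1) ∧ Odd p.2 := by
  unfold Sh at hp
  simp only [mem_product, mem_Icc, mem_filter, mem_Ico] at hp
  obtain ⟨⟨h1, h2⟩, ⟨h3, h4⟩, h5⟩ := hp
  exact ⟨h1, h2, h3, h4, h5⟩

lemma log_Sh {i : ℕ} {p : ℕ × ℕ} (hp : p ∈ Sh i) : Nat.log 4 p.2 = i := by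
  obtain ⟨h1, h2, h3, h4, h5⟩ := mem_Sh hp
  exact (Nat.log_eq_iff (Or.inl (by omega))).2 ⟨h3, h4⟩

lemma del_qf {i : ℕ} {p : ℕ × ℕ} (hp : p ∈ Sh i) : del (qf p) = rho i / qf p := by
  obtain ⟨h1, h2, h3, h4, h5⟩ := mem_Sh hp
  unfold del
  rw [quo_qf h5, val_qf h5, log_Sh hp, if_pos ⟨h1, h2⟩]

lemma del_nonneg (q : ℕ) : 0 ≤ del q := by
  unfold del rho
  split_ifs <;> positivity

lemma rho_le_one (i : ℕ) : rho i ≤ 1 := by
  unfold rho
  rcases Nat.eq_zero_or_pos i with rfl | h
  · simp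
  · have h1 : (1 : ℝ) ≤ (i : ℝ) ^ 2 := by
      have : (1 : ℝ) ≤ i := by exact_mod_cast h
      nlinarith
    have h2 : (1 : ℝ) ≤ 4 ^ i := one_le_pow₀ (by norm_num)
    rw [div_le_one (by positivity)]
    nlinarith

lemma del_tendsto : Tendsto del atTop (𝓝 0) := by
  have h1 : Tendsto (fun q : ℕ => 1 / (q : ℝ)) atTop (𝓝 0) := tendsto_one_div_atTop_nhds_zero_nat
  refine squeeze_zero del_nonneg (fun q => ?_) h1
  unfold del
  split_ifs
  · gcongr
    exact rho_le_one _
  · positivity

lemma tot_two_mul (m : ℕ) : Nat.totient (2 * m) ≤ m := by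
  induction m using Nat.strong_induction_on with
  | _ m ih =>
    rcases Nat.eq_zero_or_pos m with rfl | hm
    · simp
    · rcases Nat.even_or_odd m with hm2 | hm2
      · rw [Nat.totient_two_mul_of_even hm2]
        obtain ⟨l, rfl⟩ := hm2
        have h1 := ih l (by omega)
        have h2 : l + l = 2 * l := by ring
        rw [h2]
        omega
      · rw [Nat.totient_two_mul_of_odd hm2]
        exact Nat.totient_le m

/-- sum of `φ(k)/k` over the odd numbers of a level -/
lemma odd_phi (i : ℕ) : (4 : ℝ) ^ i / 4 ≤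
    ∑ k ∈ (Ico (4 ^ i) (4 ^ (i + 1))).filter Odd, (Nat.totient k : ℝ) / k := by
  have hpos : 1 ≤ 4 ^ i := Nat.one_le_pow _ _ (by norm_num)
  have hposR : (1 : ℝ) ≤ 4 ^ i := by exact_mod_cast hpos
  have h1 : (4 : ℝ) ^ i ≤ ∑ r ∈ Ico (4 ^ i) (4 ^ (i + 1)), (Nat.totient r : ℝ) / r := by
    have h1 := Pool.Agent.R335.PP.sum_phi (4 ^ (i + 1) - 1)
    have e1 : 4 ^ (i + 1) - 1 + 1 = 4 ^ (i + 1) := by
      have : 1 ≤ 4 ^ (i + 1) := Nat.one_le_pow _ _ (by norm_num)
      omega
    rw [e1] at h1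
    have e2 : ((4 ^ (i + 1) - 1 : ℕ) : ℝ) = 4 * 4 ^ i - 1 := by
      rw [Nat.cast_sub (Nat.one_le_pow _ _ (by norm_num))]
      push_cast
      ring
    rw [e2] at h1
    have h2 : ∑ r ∈ Ico 1 (4 ^ (i + 1)), (Nat.totient r : ℝ) / r =
        ∑ r ∈ Ico 1 (4 ^ i), (Nat.totient r : ℝ) / r +
        ∑ r ∈ Ico (4 ^ i) (4 ^ (i + 1)), (Nat.totient r : ℝ) / r :=
      (sum_Ico_consecutive _ hpos (Nat.pow_le_pow_right (by norm_num) (by omega))).symm
    have h3 : ∑ r ∈ Ico 1 (4 ^ i), (Nat.totient r : ℝ) / r ≤ 4 ^ i - 1 := by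
      calc ∑ r ∈ Ico 1 (4 ^ i), (Nat.totient r : ℝ) / r ≤ ∑ r ∈ Ico 1 (4 ^ i), (1 : ℝ) := by
            refine sum_le_sum fun r hr => ?_
            rw [mem_Ico] at hr
            have h4 : (0 : ℝ) < r := by exact_mod_cast (by omega : 0 < r)
            rw [div_le_one h4]
            exact_mod_cast Nat.totient_le r
        _ = 4 ^ i - 1 := by
            rw [sum_const, Nat.card_Ico, nsmul_eq_mul, mul_one, Nat.cast_sub hpos]
            push_cast
            rfl
    linarith
  -- the even numbers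
  have h2 : ∑ r ∈ (Ico (4 ^ i) (4 ^ (i + 1))).filter (fun r => ¬ Odd r), (Nat.totient r : ℝ) / r ≤
      3 / 4 * 4 ^ i := by
    rcases Nat.eq_zero_or_pos i with rfl | hi
    · have e : (Ico (4 ^ 0) (4 ^ (0 + 1))).filter (fun r => ¬ Odd r) = {2} := by decide
      rw [e, sum_singleton]
      norm_num
    · have hcard : (((Ico (4 ^ i) (4 ^ (i + 1))).filter (fun r => ¬ Odd r)).card : ℝ) ≤ 3 / 2 * 4 ^ i := by
        have h3 : ((Ico (4 ^ i) (4 ^ (i + 1))).filter (fun r => ¬ Odd r)).card ≤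
            (Ico (4 ^ i / 2) (4 ^ (i + 1) / 2)).card := by
          apply Finset.card_le_card_of_injOn (fun r => r / 2)
          · intro r hr
            rw [coe_filter, Set.mem_ofPred_eq, mem_Ico, Nat.not_odd_iff_even, Nat.even_iff] at hr
            rw [coe_Ico, Set.mem_Ico]
            have h4 : 4 ^ (i + 1) % 2 = 0 := by
              rw [pow_succ]; omega
            show 4 ^ i / 2 ≤ r / 2 ∧ r / 2 < 4 ^ (i + 1) / 2
            constructor <;> omega
          · intro a ha b hb hab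
            rw [coe_filter, Set.mem_ofPred_eq, mem_Ico, Nat.not_odd_iff_even, Nat.even_iff] at ha hb
            have h4 : a / 2 = b / 2 := hab
            omega
        rw [Nat.card_Ico] at h3
        have h4 : 4 ^ (i + 1) / 2 - 4 ^ i / 2 ≤ 6 * 4 ^ (i - 1) := by
          obtain ⟨s, rfl⟩ : ∃ s, i = s + 1 := ⟨i - 1, by omega⟩
          have e1 : 4 ^ (s + 1 + 1) = 16 * 4 ^ s := by ring
          have e2 : 4 ^ (s + 1) = 4 * 4 ^ s := by ring
          rw [e1, e2, Nat.add_sub_cancel]
          omega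
        have h5 := h3.trans h4
        have h6 : (((Ico (4 ^ i) (4 ^ (i + 1))).filter (fun r => ¬ Odd r)).card : ℝ) ≤ 6 * 4 ^ (i - 1) := by
          exact_mod_cast h5
        refine h6.trans (le_of_eq ?_)
        obtain ⟨s, rfl⟩ : ∃ s, i = s + 1 := ⟨i - 1, by omega⟩
        rw [Nat.add_sub_cancel, pow_succ]
        ring
      calc ∑ r ∈ (Ico (4 ^ i) (4 ^ (i + 1))).filter (fun r => ¬ Odd r), (Nat.totient r : ℝ) / r
          ≤ ∑ r ∈ (Ico (4 ^ i) (4 ^ (i + 1))).filter (fun r => ¬ Odd r), (1 / 2 : ℝ) := by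
            refine sum_le_sum fun r hr => ?_
            rw [mem_filter, mem_Ico, Nat.not_odd_iff_even] at hr
            obtain ⟨⟨hr1, _⟩, hr2⟩ := hr
            have h4 : (0 : ℝ) < r := by exact_mod_cast (by omega : 0 < r)
            have h5 : Nat.totient r ≤ r / 2 := by
              obtain ⟨m, rfl⟩ := hr2
              have h6 : m + m = 2 * m := by ring
              rw [h6, Nat.mul_div_cancel_left _ (by norm_num)]
              exact tot_two_mul m
            rw [div_le_iff₀ h4]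
            have h6 : (Nat.totient r : ℝ) ≤ ((r / 2 : ℕ) : ℝ) := by exact_mod_cast h5
            have h7 : ((r / 2 : ℕ) : ℝ) ≤ (r : ℝ) / 2 := Nat.cast_div_le
            linarith
        _ = ((Ico (4 ^ i) (4 ^ (i + 1))).filter (fun r => ¬ Odd r)).card * (1 / 2 : ℝ) := by
            rw [sum_const, nsmul_eq_mul]
        _ ≤ 3 / 4 * 4 ^ i := by linarith
  have h3 := Finset.sum_filter_add_sum_filter_not (Ico (4 ^ i) (4 ^ (i + 1))) Odd
    (fun r => (Nat.totient r : ℝ) / r)
  linarith

lemma card_odd_le (i : ℕ) : (((Ico (4 ^ i) (4 ^ (i + 1))).filter Odd).card : ℝ) ≤ 3 * 4 ^ i := by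
  have h1 : ((Ico (4 ^ i) (4 ^ (i + 1))).filter Odd).card ≤ (Ico (4 ^ i) (4 ^ (i + 1))).card :=
    card_filter_le _ _
  rw [Nat.card_Ico] at h1
  have h2 : 4 ^ (i + 1) - 4 ^ i = 3 * 4 ^ i := by
    rw [pow_succ]; omega
  rw [h2] at h1
  exact_mod_cast h1

/-- the measure of a level from below -/
lemma level_measure {i : ℕ} (hi : 1 ≤ i) :
    1 / (64 * (i : ℝ)) ≤ ∑ p ∈ Sh i, (volume : Measure UnitAddCircle).real (E (qf p) (del (qf p))) := by
  have hiR : (1 : ℝ) ≤ i := by exact_mod_cast hi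
  have h1 : ∀ p ∈ Sh i, (volume : Measure UnitAddCircle).real (E (qf p) (del (qf p))) =
      rho i * ((Nat.totient p.2 : ℝ) / p.2) := by
    intro p hp
    obtain ⟨h1, h2, h3, h4, h5⟩ := mem_Sh hp
    have hp0 : 0 < p.2 := by
      have : 1 ≤ 4 ^ i := Nat.one_le_pow _ _ (by norm_num)
      omega
    have hq : 0 < qf p := by unfold qf; positivity
    have hqR : (0 : ℝ) < qf p := by exact_mod_cast hq
    have hpR : (0 : ℝ) < p.2 := by exact_mod_cast hp0
    rw [vol_E hq (del_nonneg _)]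
    · rw [del_qf hp]
      have h6 : Nat.totient (qf p) = 2 ^ (p.1 - 1) * Nat.totient p.2 := by
        unfold qf
        rw [Nat.totient_mul, Nat.totient_prime_pow Nat.prime_two h1]
        · norm_num
        · exact Nat.Coprime.pow_left _ (Nat.coprime_two_left.2 h5)
      rw [h6]
      have h7 : (qf p : ℝ) = 2 * 2 ^ (p.1 - 1) * p.2 := by
        unfold qf
        push_cast
        rw [← pow_succ', Nat.sub_add_cancel h1]
      rw [h7]
      push_cast
      field_simp
    · rw [del_qf hp]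
      have h8 : rho i ≤ 1 / 2 := by
        unfold rho
        have h9 : (1 : ℝ) ≤ (i : ℝ) ^ 2 := by nlinarith
        have h10 : (1 : ℝ) ≤ 4 ^ i := one_le_pow₀ (by norm_num)
        rw [div_le_div_iff₀ (by positivity) (by norm_num)]
        nlinarith
      calc rho i / qf p ≤ 1 / 2 / qf p := by gcongr
        _ = 1 / (2 * qf p) := by field_simp
  rw [sum_congr rfl h1]
  unfold Sh
  rw [sum_product]
  simp only
  rw [sum_const, Nat.card_Icc, Nat.add_sub_cancel, nsmul_eq_mul, ← mul_sum]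
  have h2 := odd_phi i
  have h3 : 0 ≤ rho i := by unfold rho; positivity
  calc 1 / (64 * (i : ℝ)) = i * (rho i * (4 ^ i / 4)) := by
        unfold rho
        field_simp
        norm_num
    _ ≤ _ := by gcongr

/-- the total radius of a level from above -/
lemma level_rho {i : ℕ} (hi : 1 ≤ i) : ∑ p ∈ Sh i, (qf p : ℝ) * del (qf p) ≤ 3 / (16 * (i : ℝ)) := by
  have hiR : (1 : ℝ) ≤ i := by exact_mod_cast hi
  have h1 : ∀ p ∈ Sh i, (qf p : ℝ) * del (qf p) = rho i := by
    intro p hp
    obtain ⟨h1, h2, h3, h4, h5⟩ := mem_Sh hp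
    have hp0 : 0 < p.2 := by
      have : 1 ≤ 4 ^ i := Nat.one_le_pow _ _ (by norm_num)
      omega
    have hqR : (0 : ℝ) < qf p := by
      have : 0 < qf p := by unfold qf; positivity
      exact_mod_cast this
    rw [del_qf hp]
    field_simp
  rw [sum_congr rfl h1, sum_const, nsmul_eq_mul]
  unfold Sh
  rw [card_product, Nat.card_Icc, Nat.add_sub_cancel]
  push_cast
  have h2 := card_odd_le i
  have h3 : 0 ≤ rho i := by unfold rho; positivity
  calc (i : ℝ) * (((Ico (4 ^ i) (4 ^ (i + 1))).filter Odd).card : ℝ) * rho i ≤ i * (3 * 4 ^ i) * rho i := by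
        gcongr
    _ = _ := by
        unfold rho
        field_simp

/-- **Mixed Khintchine theorem.** -/
theorem khin : ∀ᵐ x : UnitAddCircle, x ∈ addWellApproximable UnitAddCircle del := by
  classical
  rcases AddCircle.addWellApproximable_ae_empty_or_univ (T := 1) del del_tendsto with h | h
  swap
  · exact h
  exfalso
  -- the tails
  set W : ℕ → Set UnitAddCircle := fun n => ⋃ q, ⋃ (_ : n ≤ q ∧ 0 < q), E q (del q) with hW
  have hWm : ∀ n, MeasurableSet (W n) := fun n =>
    MeasurableSet.iUnion fun q => MeasurableSet.iUnion fun _ => meas_E q _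
  have hanti : Antitone W := by
    intro a b hab x hx
    simp only [hW, Set.mem_iUnion] at hx ⊢
    obtain ⟨q, ⟨h1, h2⟩, h3⟩ := hx
    exact ⟨q, ⟨by omega, h2⟩, h3⟩
  have hlow : ∀ n, (1 / 184320 : ℝ) ≤ (volume : Measure UnitAddCircle).real (W n) := by
    intro n
    set I := n + 1 with hI
    -- choose the end of the block
    obtain ⟨J, hJ1, hJ2⟩ : ∃ J, I ≤ J ∧ (64 : ℝ) ≤ ∑ i ∈ Ico I J, 1 / (i : ℝ) := by
      have h1 := Real.tendsto_sum_range_one_div_nat_succ_atTop
      have h2 := (tendsto_atTop.1 h1) (64 + ∑ i ∈ range I, 1 / ((i : ℝ) + 1))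
      obtain ⟨m, hm1, hm2⟩ := (h2.and (eventually_ge_atTop I)).exists
      refine ⟨m + 1, by omega, ?_⟩
      have h3 : ∑ i ∈ Ico I (m + 1), 1 / (i : ℝ) = ∑ i ∈ Ico (I - 1) m, 1 / ((i : ℝ) + 1) := by
        rw [show I = (I - 1) + 1 by omega, ← Finset.sum_Ico_add' (fun i : ℕ => 1 / (i : ℝ)) (I - 1) m 1]
        refine sum_congr (by simp) fun i _ => ?_
        push_cast
        rfl
      rw [h3]
      have h4 : ∑ i ∈ range m, 1 / ((i : ℝ) + 1) =
          ∑ i ∈ range (I - 1), 1 / ((i : ℝ) + 1) + ∑ i ∈ Ico (I - 1) m, 1 / ((i : ℝ) + 1) :=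
        (sum_range_add_sum_Ico _ (by omega)).symm
      have h5 : ∑ i ∈ range (I - 1), 1 / ((i : ℝ) + 1) ≤ ∑ i ∈ range I, 1 / ((i : ℝ) + 1) :=
        sum_le_sum_of_subset_of_nonneg (range_mono (by omega)) fun i _ _ => by positivity
      linarith
    set B : Finset (ℕ × ℕ) := (Ico I J).biUnion Sh with hB
    have hdis : Set.PairwiseDisjoint (↑(Ico I J) : Set ℕ) Sh := by
      intro a _ b _ hab
      rw [Function.onFun, Finset.disjoint_left]
      intro p hp1 hp2
      exact hab ((log_Sh hp1).symm.trans (log_Sh hp2))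
    have hBodd : ∀ p ∈ B, Odd p.2 ∧ 0 < qf p ∧ n ≤ qf p := by
      intro p hp
      obtain ⟨i, hi, hp⟩ := mem_biUnion.1 hp
      obtain ⟨h1, h2, h3, h4, h5⟩ := mem_Sh hp
      have h6 : i < 4 ^ i := Nat.lt_pow_self (by norm_num)
      have h7 : I ≤ i := (mem_Ico.1 hi).1
      have h8 : p.2 ≤ qf p := by
        unfold qf
        exact Nat.le_mul_of_pos_left _ (by positivity)
      exact ⟨h5, by omega, by omega⟩
    set S := ∑ p ∈ B, (volume : Measure UnitAddCircle).real (E (qf p) (del (qf p))) with hS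
    set R := ∑ p ∈ B, (qf p : ℝ) * del (qf p) with hR
    set H := ∑ i ∈ Ico I J, 1 / (i : ℝ) with hH
    have hSlow : H / 64 ≤ S := by
      rw [hS, hB, sum_biUnion hdis, hH, sum_div]
      refine sum_le_sum fun i hi => ?_
      have h1 := level_measure (i := i) (by have := (mem_Ico.1 hi).1; omega)
      refine le_trans (le_of_eq ?_) h1
      field_simp
    have hRup : R ≤ 3 / 16 * H := by
      rw [hR, hB, sum_biUnion hdis, hH, mul_sum]
      refine sum_le_sum fun i hi => ?_
      have h1 := level_rho (i := i) (by have := (mem_Ico.1 hi).1; omega)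
      refine le_trans h1 (le_of_eq ?_)
      field_simp
    have hR0 : 0 ≤ R := sum_nonneg fun p _ => mul_nonneg (Nat.cast_nonneg _) (del_nonneg _)
    have hSup : S ≤ 2 * R := by
      rw [hS, hR, mul_sum]
      refine sum_le_sum fun p hp => ?_
      obtain ⟨_, h2, _⟩ := hBodd p hp
      unfold E
      refine (measureReal_biUnion_finset_le _ _).trans ?_
      calc ∑ a ∈ num (qf p), (volume : Measure UnitAddCircle).real (ball (pt (qf p) a) (del (qf p)))
          ≤ ∑ a ∈ num (qf p), 2 * del (qf p) := sum_le_sum fun a _ => vol_ball_le _ (del_nonneg _)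
        _ = (Nat.totient (qf p)) * (2 * del (qf p)) := by rw [sum_const, card_num, nsmul_eq_mul]
        _ ≤ (qf p : ℝ) * (2 * del (qf p)) := by
            apply mul_le_mul_of_nonneg_right
            · exact_mod_cast Nat.totient_le _
            · have := del_nonneg (qf p)
              linarith
        _ = _ := by ring
    have hQ : ∑ p ∈ B, ∑ p' ∈ B, (volume : Measure UnitAddCircle).real
        (E (qf p) (del (qf p)) ∩ E (qf p') (del (qf p'))) ≤ 2 * R + 8 * R ^ 2 := by
      have h1 : ∀ p ∈ B, ∑ p' ∈ B, (volume : Measure UnitAddCircle).real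
          (E (qf p) (del (qf p)) ∩ E (qf p') (del (qf p'))) ≤
          (volume : Measure UnitAddCircle).real (E (qf p) (del (qf p))) +
            8 * ((qf p : ℝ) * del (qf p)) * R := by
        intro p hp
        rw [← add_sum_erase _ _ hp, Set.inter_self]
        have h2 : ∑ p' ∈ B.erase p, (volume : Measure UnitAddCircle).real
            (E (qf p) (del (qf p)) ∩ E (qf p') (del (qf p'))) ≤
            ∑ p' ∈ B, 8 * ((qf p : ℝ) * del (qf p)) * ((qf p' : ℝ) * del (qf p')) := by
          calc _ ≤ ∑ p' ∈ B.erase p, 8 * ((qf p : ℝ) * del (qf p)) * ((qf p' : ℝ) * del (qf p')) := by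
                refine sum_le_sum fun p' hp' => ?_
                obtain ⟨h3, h4, _⟩ := hBodd p hp
                obtain ⟨h5, h6, _⟩ := hBodd p' (mem_of_mem_erase hp')
                exact overlap h4 h6 (fun h => (ne_of_mem_erase hp') (qf_inj h5 h3 h.symm))
                  (del_nonneg _) (del_nonneg _)
            _ ≤ _ := sum_le_sum_of_subset_of_nonneg (erase_subset _ _) fun p' _ _ => by
                have h3 := del_nonneg (qf p)
                have h4 := del_nonneg (qf p')
                positivity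
        rw [← mul_sum] at h2
        linarith
      calc _ ≤ ∑ p ∈ B, ((volume : Measure UnitAddCircle).real (E (qf p) (del (qf p))) +
            8 * ((qf p : ℝ) * del (qf p)) * R) := sum_le_sum h1
        _ = S + 8 * R * R := by
            rw [sum_add_distrib, ← sum_mul, ← mul_sum]
        _ ≤ _ := by nlinarith
    have hC := chung (μ := (volume : Measure UnitAddCircle)) B (fun p => E (qf p) (del (qf p)))
      (fun p => meas_E _ _)
    have hsub : (⋃ p ∈ B, E (qf p) (del (qf p))) ⊆ W n := by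
      intro x hx
      simp only [Set.mem_iUnion, exists_prop] at hx
      obtain ⟨p, hp, hxp⟩ := hx
      obtain ⟨_, h2, h3⟩ := hBodd p hp
      simp only [hW, Set.mem_iUnion]
      exact ⟨qf p, ⟨h3, h2⟩, hxp⟩
    have hmono := measureReal_mono (μ := (volume : Measure UnitAddCircle)) hsub (measure_ne_top _ _)
    set u := (volume : Measure UnitAddCircle).real (⋃ p ∈ B, E (qf p) (del (qf p))) with hu
    have hu0 : 0 ≤ u := measureReal_nonneg
    have h1 : S ^ 2 ≤ (2 * R + 8 * R ^ 2) * u := hC.trans (mul_le_mul_of_nonneg_right hQ hu0)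
    -- numbers
    have hHpos : 64 ≤ H := hJ2
    have h2 : H ^ 2 / 4096 ≤ S ^ 2 := by
      have : H ^ 2 / 4096 = (H / 64) ^ 2 := by ring
      rw [this]
      exact pow_le_pow_left₀ (by linarith) hSlow 2
    have h3 : 2 * R + 8 * R ^ 2 ≤ H ^ 2 := by
      nlinarith
    have h4 : H ^ 2 / 4096 ≤ H ^ 2 * u := by
      calc H ^ 2 / 4096 ≤ (2 * R + 8 * R ^ 2) * u := h2.trans h1
        _ ≤ H ^ 2 * u := mul_le_mul_of_nonneg_right h3 hu0
    have h5 : 1 / 4096 ≤ u := by
      have h6 : H ^ 2 * (1 / 4096) ≤ H ^ 2 * u := by linarith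
      exact le_of_mul_le_mul_left h6 (by positivity)
    linarith
  -- the intersection of the tails is null
  have hinter : (⋂ n, W n) ⊆ addWellApproximable UnitAddCircle del := by
    intro x hx
    rw [UnitAddCircle.mem_addWellApproximable_iff]
    intro hfin
    obtain ⟨b, hb⟩ := hfin.bddAbove
    have h1 := Set.mem_iInter.1 hx (b + 1)
    simp only [hW, Set.mem_iUnion] at h1
    obtain ⟨q, ⟨h2, h3⟩, h4⟩ := h1
    rw [← E_eq h3, UnitAddCircle.mem_approxAddOrderOf_iff h3] at h4
    have h5 := hb h4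
    omega
  have hnull : (volume : Measure UnitAddCircle) (⋂ n, W n) = 0 := by
    apply measure_mono_null hinter
    rw [ae_iff] at h
    simpa using h
  have hlim : Tendsto (fun n => (volume : Measure UnitAddCircle) (W n)) atTop
      (𝓝 ((volume : Measure UnitAddCircle) (⋂ n, W n))) :=
    tendsto_measure_iInter_atTop (fun n => (hWm n).nullMeasurableSet) hanti ⟨0, measure_ne_top _ _⟩
  rw [hnull] at hlim
  have h6 : ∀ n, ENNReal.ofReal (1 / 184320) ≤ (volume : Measure UnitAddCircle) (W n) := by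
    intro n
    have := hlow n
    rw [measureReal_def] at this
    exact ENNReal.ofReal_le_of_le_toReal this
  have h7 : ENNReal.ofReal (1 / 184320) ≤ 0 := ge_of_tendsto' hlim h6
  have h8 : (0 : ENNReal) < ENNReal.ofReal (1 / 184320) := ENNReal.ofReal_pos.2 (by norm_num)
  exact absurd (h8.trans_le h7) (lt_irrefl _)

end Pool.Agent.R335.MK
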