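import Mathlib
import Pool.Agent.R335.MK.Khin

/-!
Large discrepancy of the van der Corput-Kronecker sequence from a good rational approximation.
-/

set_option autoImplicit false

open MeasureTheory Filter Topology Finset

namespace Pool.Agent.R335.MK

/-- van der Corput sequence in base 2 -/
noncomputable def vdc (n : ℕ) : ℝ := ∑ j ∈ range n, ((n / 2 ^ j % 2 : ℕ) : ℝ) / 2 ^ (j + 1)

lemma vdc_nonneg (n : ℕ) : 0 ≤ vdc n := sum_nonneg fun j _ => by positivity

lemma dvd_of_vdc {n j : ℕ} (h : vdc n < 1 / 2 ^ j) : 2 ^ j ∣ n := by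
  by_contra hn
  have hn0 : n ≠ 0 := by
    rintro rfl
    exact hn (dvd_zero _)
  set l := padicValNat 2 n with hl
  have h1 : 2 ^ l ∣ n := pow_padicValNat_dvd
  have h2 : ¬ 2 ^ (l + 1) ∣ n := pow_succ_padicValNat_not_dvd hn0
  have hlj : l < j := by
    by_contra hge
    push Not at hge
    exact hn ((pow_dvd_pow 2 hge).trans h1)
  obtain ⟨m, hm⟩ := h1
  have hpos : 0 < 2 ^ l := by positivity
  have h3 : n / 2 ^ l = m := by
    rw [hm]
    exact Nat.mul_div_cancel_left _ hpos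
  have h4 : m % 2 = 1 := by
    have h5 : ¬ 2 ∣ m := by
      rintro ⟨c, rfl⟩
      apply h2
      exact ⟨c, by rw [hm]; ring⟩
    omega
  have hln : l < n := by
    have h5 : l < 2 ^ l := Nat.lt_pow_self (by norm_num)
    have h6 : 2 ^ l ≤ n := Nat.le_of_dvd (by omega) ⟨m, hm⟩
    omega
  have h7 : (1 : ℝ) / 2 ^ (l + 1) ≤ vdc n := by
    unfold vdc
    have h8 := single_le_sum (f := fun j => ((n / 2 ^ j % 2 : ℕ) : ℝ) / 2 ^ (j + 1))
      (fun i _ => by positivity) (mem_range.2 hln)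
    refine le_trans (le_of_eq ?_) h8
    rw [h3, h4]
    norm_num
  have h8 : (1 : ℝ) / 2 ^ j ≤ 1 / 2 ^ (l + 1) := by
    apply one_div_le_one_div_of_le (by positivity)
    exact pow_le_pow_right₀ (by norm_num) hlj
  linarith

/-- no point in a box -/
lemma empty_box {α : ℝ} {j k i : ℕ} {A : ℤ} (hk : 0 < k) (hki : k < 4 ^ (i + 1)) (hi : 1 ≤ i)
    (h : |α - (A : ℝ) / ((2 ^ j * k : ℕ) : ℝ)| < rho i / ((2 ^ j * k : ℕ) : ℝ)) {n : ℕ}
    (hn : n < 2 ^ j * k * i ^ 2) (hv : vdc n < 1 / 2 ^ j) (h1 : 1 / (4 * (k : ℝ)) ≤ Int.fract (n * α))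
    (h2 : Int.fract (n * α) < 3 / (4 * (k : ℝ))) : False := by
  obtain ⟨m, rfl⟩ := dvd_of_vdc hv
  have hkR : (0 : ℝ) < k := by exact_mod_cast hk
  have hpos : 0 < 2 ^ j := by positivity
  have hm : m < k * i ^ 2 := by
    have : 2 ^ j * m < 2 ^ j * (k * i ^ 2) := by
      calc 2 ^ j * m < 2 ^ j * k * i ^ 2 := hn
        _ = _ := by ring
    exact lt_of_mul_lt_mul_left this (by positivity)
  have hmR : (m : ℝ) ≤ k * i ^ 2 := by exact_mod_cast hm.le
  set θ : ℝ := 2 ^ j * α - A / k with hθ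
  have hθ1 : |θ| < rho i / k := by
    have e : θ = 2 ^ j * (α - (A : ℝ) / ((2 ^ j * k : ℕ) : ℝ)) := by
      rw [hθ]
      push_cast
      field_simp
    rw [e, abs_mul, abs_of_pos (by positivity : (0 : ℝ) < 2 ^ j)]
    calc (2 : ℝ) ^ j * |α - (A : ℝ) / ((2 ^ j * k : ℕ) : ℝ)| < 2 ^ j * (rho i / ((2 ^ j * k : ℕ) : ℝ)) :=
          mul_lt_mul_of_pos_left h (by positivity)
      _ = rho i / k := by
          push_cast
          field_simp
  have hiR : (1 : ℝ) ≤ i := by exact_mod_cast hi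
  have h4k : (k : ℝ) < 4 * 4 ^ i := by
    have : (k : ℝ) < 4 ^ (i + 1) := by exact_mod_cast hki
    rw [pow_succ] at this
    linarith
  have hmθ : |(m : ℝ) * θ| < 1 / (4 * k) := by
    rw [abs_mul, Nat.abs_cast]
    calc (m : ℝ) * |θ| ≤ (k * i ^ 2) * (rho i / k) := by
          apply mul_le_mul hmR hθ1.le (abs_nonneg _) (by positivity)
      _ = 1 / (4 * (4 * 4 ^ i)) := by
          unfold rho
          field_simp
          norm_num
      _ < 1 / (4 * k) := by
          apply one_div_lt_one_div_of_lt (by positivity)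
          linarith
  have hval : (((2 ^ j * m : ℕ)) : ℝ) * α = m * A / k + m * θ := by
    rw [hθ]
    push_cast
    field_simp
    ring
  set s : ℤ := m * A - k * ⌊(((2 ^ j * m : ℕ)) : ℝ) * α⌋ with hs
  have hfr : Int.fract ((((2 ^ j * m : ℕ)) : ℝ) * α) = s / k + m * θ := by
    have h3 := Int.self_sub_floor ((((2 ^ j * m : ℕ)) : ℝ) * α)
    rw [← h3, hs]
    push_cast
    push_cast at hval
    rw [hval]
    field_simp
    ring
  rw [hfr] at h1 h2
  have h3 := abs_lt.1 hmθ
  have h5 : (0 : ℝ) < (s : ℝ) / k := by linarith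
  have h6 : (s : ℝ) / k < 1 / k := by
    have : (1 : ℝ) / k = 3 / (4 * k) + 1 / (4 * k) := by
      field_simp
      norm_num
    linarith
  have h7 : (0 : ℝ) < s := by
    by_contra h8
    push Not at h8
    have := div_nonpos_of_nonpos_of_nonneg h8 hkR.le
    linarith
  have h8 : (s : ℝ) < 1 := by
    by_contra h9
    push Not at h9
    have := div_le_div_of_nonneg_right h9 hkR.le
    linarith
  have h9 : 0 < s := by exact_mod_cast h7
  have h10 : s < 1 := by exact_mod_cast h8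
  omega

/-- good approximations from the mixed Khintchine theorem -/
lemma good_approx {α : ℝ} (h : ((α : ℝ) : UnitAddCircle) ∈ addWellApproximable UnitAddCircle del) (Q : ℕ) :
    ∃ j k i : ℕ, ∃ A : ℤ, Q ≤ 2 ^ j * k ∧ 0 < k ∧ k < 4 ^ (i + 1) ∧ 1 ≤ i ∧ j ≤ i ∧
      |α - (A : ℝ) / ((2 ^ j * k : ℕ) : ℝ)| < rho i / ((2 ^ j * k : ℕ) : ℝ) := by
  rw [UnitAddCircle.mem_addWellApproximable_iff] at h
  obtain ⟨q, hq, hQ⟩ := h.exists_gt Q
  obtain ⟨m, hm, hgcd, hlt⟩ := hq
  have hq0 : 0 < q := by omega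
  have hpos : 0 < del q := lt_of_le_of_lt (norm_nonneg _) hlt
  unfold del at hpos hlt
  split_ifs at hpos hlt with hc
  · set j := padicValNat 2 q with hj
    set k := q / 2 ^ j with hk
    set i := Nat.log 4 k with hi
    have hqk : 2 ^ j * k = q := Nat.mul_div_cancel' pow_padicValNat_dvd
    have hk0 : 0 < k := Nat.pos_of_ne_zero (by
      intro h0
      rw [h0, mul_zero] at hqk
      omega)
    rw [← AddCircle.coe_sub, UnitAddCircle.norm_eq] at hlt
    refine ⟨j, k, i, m + q * round (α - (m : ℝ) / q), by omega, hk0,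
      Nat.lt_pow_succ_log_self (by norm_num) _, by omega, hc.2, ?_⟩
    rw [hqk]
    have hqR : (0 : ℝ) < q := by exact_mod_cast hq0
    have e : α - ((m + q * round (α - (m : ℝ) / q) : ℤ) : ℝ) / q =
        α - (m : ℝ) / q - round (α - (m : ℝ) / q) := by
      push_cast
      field_simp
      ring
    rw [e]
    exact hlt
  · exact absurd hpos (lt_irrefl _)

end Pool.Agent.R335.MK
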